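import Pool.Agent.Q145.GB1
import Pool.Agent.TH935.GF
import Pool.Agent.W93.GB1
import Pool.Agent.Q56.TF.Typ
import Pool.Agent.Q56.TF.Ord
import Pool.Agent.Q56.TF.Mul

/-!
# Goldbach partitions whose smaller prime exceeds the square root, for all even multiples of all integers in windows
around real sequences

The integers `q` are all the positive integers at a distance of at most `log ^ A N` from `r m`, for almost all
`m ≤ x`, where `r 1, ..., r x` is an arbitrary family of real numbers of nearly minimal energy; for instance the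
(real) values `β + κ₀ f m` of a polynomial `f` with integer coefficients, with arbitrary real `κ₀ ≠ 0` and `β`, or of
a generalised polynomial `f t = ∑ w_y t ^ y` whose largest exponent is greater than `1` and not an integer
(`f t = t ^ c`: the sequences of Piatetski-Shapiro). The problem is settled, in a quantitative form, for ALL the even
multiples `n ≤ q log ^ κ q` of these `q`, in particular for all the even integers of the windows.

From Mathlib: `n.primeFactors`: the set of the prime divisors of `n`; `Polynomial ℤ`, `f.eval m`: polynomials and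
their values.
The asymptotic formula in short intervals for families of integers is from the starting files
(`Pool.Agent.TH935.GF.fam_win`), the passage to real sequences and multiples from `Pool.Agent.Q56.TF` (helper56).
-/

set_option autoImplicit false

namespace Pool.Agent.Results.MP_73b532_nt.EvensNearRealSequences

open Finset

open Classical in
/-- The energy of order `p` of the family of real numbers `r 1, ..., r x`: the number of the pairs `v`, `w` of
`p`-tuples of elements of `{1, ..., x}` such that `r (v 1) + ... + r (v p)` and `r (w 1) + ... + r (w p)` differ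
by at most `1`. -/
noncomputable def energy (p x : ℕ) (r : ℕ → ℝ) : ℕ :=
  (((Fintype.piFinset fun _ : Fin p => Icc 1 x) ×ˢ (Fintype.piFinset fun _ : Fin p => Icc 1 x)).filter
    (fun q => |∑ i, r (q.1 i) - ∑ i, r (q.2 i)| ≤ 1)).card

/-- The twin prime constant `C₂ = ∏_{p > 2} (1 - 1 / (p - 1) ^ 2)`: the infimum of the decreasing partial products
over the primes `3 ≤ p ≤ z`. -/
noncomputable def C₂ : ℝ := ⨅ z : ℕ, ∏ p ∈ (Icc 3 z).filter Nat.Prime, (1 - 1 / ((p : ℝ) - 1) ^ 2)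

/-- The singular series `2 C₂ ∏_{p ∣ n, p > 2} (p - 1) / (p - 2)`. -/
noncomputable def sing (n : ℕ) : ℝ :=
  2 * C₂ * ∏ p ∈ n.primeFactors.filter (fun p => 2 < p), ((p : ℝ) - 1) / ((p : ℝ) - 2)

/-- The number of the primes `p` with `x < p ≤ y` such that `m - p` is also a prime. -/
def G (m x y : ℕ) : ℕ := ((Ioc x y).filter (fun p => p.Prime ∧ (m - p).Prime)).card

/-- (1) There is a prime `p` with `√m < p ≤ m / 2` such that `m - p` is also a prime. (2) For every interval
`(x, y]`, `0 ≤ x < y ≤ m / 2`, of length at least `m / log ^ D m`, the number of the primes `p` in `(x, y]` such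
that `m - p` is also a prime is `sing m * (y - x) / log ^ 2 m`, up to a relative error of at most `ε`. -/
def Good (ε : ℝ) (D m : ℕ) : Prop :=
  (∃ p : ℕ, p.Prime ∧ (m - p).Prime ∧ m < p ^ 2 ∧ 2 * p ≤ m) ∧
  ∀ x y : ℕ, 2 * y ≤ m → (m : ℝ) / Real.log m ^ D ≤ (y : ℝ) - x →
    |(G m x y : ℝ) - sing m * ((y : ℝ) - x) / Real.log m ^ 2| ≤ ε * (sing m * ((y : ℝ) - x) / Real.log m ^ 2)

/-- All even multiples `n` of `q` with `0 < n ≤ q log ^ κ q` are good; for `q ≥ 3` and `κ ≥ 1` this includes `q` itself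
if `q` is even. -/
def Regular (ε : ℝ) (D κ q : ℕ) : Prop :=
  ∀ n : ℕ, 0 < n → Even n → q ∣ n → (n : ℝ) ≤ q * Real.log q ^ κ → Good ε D n

open Classical in
/-- The number of the `m` in `{1, ..., x}` for which not all positive integers `q` at a distance of at most `w` from
`r m` have the property `G`. -/
noncomputable def exceptions (x : ℕ) (r : ℕ → ℝ) (w : ℝ) (G : ℕ → Prop) : ℕ :=
  ((Icc 1 x).filter (fun m => ∃ q : ℕ, 0 < q ∧ |(q : ℝ) - r m| ≤ w ∧ ¬ G q)).card

/-- The bound at scale `N` for the windows around the `r m`, `m ≤ x`: for all `m ≤ x` with at most `x / log ^ U N`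
exceptions all positive integers `q` with `|q - r m| ≤ log ^ A N` are regular. -/
def Holds (ε : ℝ) (D A κ U N x : ℕ) (r : ℕ → ℝ) : Prop :=
  (exceptions x r (Real.log N ^ A) (Regular ε D κ) : ℝ) ≤ x / Real.log N ^ U

/-- The sequence `f`, of growth `x ^ e`, has the property at all large scales: for all `x` with
`N / log ^ C N ≤ x ^ e ≤ B N` and all translates `β + f m`, `|β| ≤ B N`. -/
def Sequence (ε : ℝ) (D A B C κ U : ℕ) (f : ℕ → ℝ) (e : ℝ) : Prop :=
  ∃ N₀ : ℕ, ∀ N : ℕ, N₀ ≤ N → ∀ x : ℕ, (x : ℝ) ^ e ≤ B * N → (N : ℝ) ≤ Real.log N ^ C * (x : ℝ) ^ e →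
    ∀ β : ℝ, |β| ≤ B * N → Holds ε D A κ U N x (fun m => β + f m)

lemma good_of (D : ℕ) (ε : ℝ) (hε : 0 < ε) : ∃ m₀ : ℕ, ∀ m : ℕ, m₀ ≤ m → 2 ∣ m →
    Pool.Agent.W93.PG.WinP (min ε (1 / 2)) (D + 1) m → Good ε D m := by
  obtain ⟨m₀, h0⟩ := Pool.Agent.Q145.GB1.core D ε hε
  refine ⟨m₀, fun m hm h2 hw => ?_⟩
  obtain ⟨⟨p, p1, p2, p3, p4⟩, h1⟩ := h0 m hm h2 hw
  exact ⟨⟨p, p1, p2, p3, p4.le⟩, fun x y hy hl => h1 x y (by omega) hl⟩

/-- families of integers: few members have a bad even multiple -/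
lemma general (D p κ : ℕ) (hp : 1 ≤ p) (ε : ℝ) (hε : 0 < ε) (B C U : ℕ) :
    ∃ N₀ : ℕ, ∀ N : ℕ, N₀ ≤ N → ∀ (ι : Type) [Fintype ι] (v : ι → ℤ), (∀ i, |v i| ≤ B * N) →
      (Pool.Agent.TH935.GF.En p v : ℝ) * N ≤ Real.log N ^ C * (Fintype.card ι : ℝ) ^ (2 * p) →
      ∀ S : Finset ι, (∀ i ∈ S, 0 < v i ∧ ¬ Regular ε D κ (v i).toNat) →
      (S.card : ℝ) ≤ Fintype.card ι / Real.log N ^ U := by
  classical
  obtain ⟨m₀, h1⟩ := good_of D ε hε
  obtain ⟨N₁, h2⟩ := Pool.Agent.Q56.TF.multiples p (2 * κ) (fun c : ℤ => 0 < c ∧ Even c ∧ ¬ Good ε D c.toNat)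
    (fun B C U => Pool.Agent.TH935.GF.transfer p B C U (Good ε D)
      (fun B C U => Pool.Agent.TH935.GF.fam_win p B C (D + 1) U m₀ hp (min ε (1 / 2))
        (lt_min hε (by norm_num)) (Good ε D) h1)) B C U
  obtain ⟨n3, h3⟩ := Pool.Agent.H373R2.T7.ev_L' 2
  refine ⟨N₁ + n3 + B + 1, fun N hN ι _ v hv hE S hS => ?_⟩
  refine h2 N (by omega) ι v (fun i => (le_abs_self _).trans (hv i)) hE S ?_
  intro i hi
  obtain ⟨hpos, hreg⟩ := hS i hi
  obtain ⟨q, hq⟩ : ∃ q : ℕ, q = (v i).toNat := ⟨_, rfl⟩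
  have hqv : (q : ℤ) = v i := by
    rw [hq]
    exact Int.toNat_of_nonneg hpos.le
  rw [← hq] at hreg
  have hq0 : 0 < q := by
    have : (0 : ℤ) < q := by rw [hqv]; exact hpos
    exact_mod_cast this
  have h4 : ¬ ∀ n : ℕ, 0 < n → Even n → q ∣ n → (n : ℝ) ≤ q * Real.log q ^ κ → Good ε D n := hreg
  push Not at h4
  obtain ⟨n, hn0, hne, ⟨l, hl⟩, hnq, hgood⟩ := h4
  have hl1 : 1 ≤ l := by
    rcases Nat.eq_zero_or_pos l with h | h
    · rw [h] at hl
      omega
    · exact h
  have hqr : (0 : ℝ) < q := by exact_mod_cast hq0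
  have hlk : (l : ℝ) ≤ Real.log q ^ κ := by
    rw [hl] at hnq
    push_cast at hnq
    exact le_of_mul_le_mul_left hnq hqr
  have hN0 : (0 : ℝ) < N := by exact_mod_cast (by omega : 0 < N)
  have hqN : (q : ℝ) ≤ (N : ℝ) * N := by
    have h5 := (le_abs_self _).trans (hv i)
    rw [← hqv] at h5
    have h6 : q ≤ B * N := by exact_mod_cast h5
    have h7 : B * N ≤ N * N := Nat.mul_le_mul_right _ (by omega)
    exact_mod_cast h6.trans h7
  have hL2 : 2 ≤ Real.log (N : ℝ) := h3 N (by omega)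
  have hlogq : Real.log q ≤ Real.log N ^ 2 := by
    calc Real.log q ≤ Real.log ((N : ℝ) * N) := Real.log_le_log hqr hqN
      _ = Real.log N + Real.log N := Real.log_mul hN0.ne' hN0.ne'
      _ ≤ Real.log N ^ 2 := by nlinarith
  have hlogq0 : 0 ≤ Real.log q := Real.log_nonneg (by exact_mod_cast hq0)
  refine ⟨l, hl1, ?_, ?_⟩
  · calc (l : ℝ) ≤ Real.log q ^ κ := hlk
      _ ≤ (Real.log N ^ 2) ^ κ := pow_le_pow_left₀ hlogq0 hlogq _
      _ = Real.log N ^ (2 * κ) := by rw [← pow_mul]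
  · have e : (l : ℤ) * v i = ((n : ℕ) : ℤ) := by
      rw [hl, ← hqv]
      push_cast
      ring
    rw [e]
    refine ⟨by exact_mod_cast hn0, by exact_mod_cast hne, ?_⟩
    simpa using hgood

lemma holds_of (D A B κ U p C : ℕ) (hp : 1 ≤ p) (ε : ℝ) (hε : 0 < ε) :
    ∃ N₀ : ℕ, ∀ N : ℕ, N₀ ≤ N → ∀ (x : ℕ) (r : ℕ → ℝ), Pool.Agent.Q56.TF.Near A p B C N x r →
      Holds ε D A κ U N x r := by
  classical
  obtain ⟨N₁, h1⟩ := general D p κ hp ε hε B C U
  refine ⟨N₁, fun N hN x r hm => ?_⟩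
  refine Pool.Agent.Q56.TF.near_types hm (Q := fun c => 0 < c ∧ ¬ Regular ε D κ c.toNat)
    (fun ι _ v hv hE S hS => h1 N hN ι v hv hE S hS) _ (filter_subset _ _) ?_
  intro m hm
  obtain ⟨_, q, hq0, hq2, hq3⟩ := mem_filter.1 hm
  exact ⟨q, by exact_mod_cast hq2, by exact_mod_cast hq0, by simpa using hq3⟩

lemma sequence_of {f : ℕ → ℝ} {e : ℝ} (h : Pool.Agent.Q56.TF.Base f e) (he : 1 ≤ e) (D A B C κ U : ℕ) (ε : ℝ)
    (hε : 0 < ε) : Sequence ε D A B C κ U f e := by
  obtain ⟨p, B', C', N₀, h1⟩ := Pool.Agent.Q56.TF.near_base h he A B C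
  obtain ⟨N₁, h2⟩ := holds_of D A B' κ U (p + 1) C' (by omega) ε hε
  exact ⟨N₀ + N₁, fun N hN x hx1 hx2 β hβ =>
    h2 N (by omega) x _ ((h1 N (by omega) x hx1 hx2 β hβ).order (by omega))⟩

/-- Let `D`, `A`, `B`, `C`, `κ`, `U` and `ε > 0` be fixed.

* For every `p` the following holds for all large `N`. Let `r 1, ..., r x` be an arbitrary family of real numbers in
  `[-B N, B N]` with an energy of order `p` of at most `log ^ C N` times `x ^ (2 p) / N` (the minimal possible order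
  of magnitude). For all `m ≤ x` with at most `x / log ^ U N` exceptions, ALL even multiples `n`, with
  `0 < n ≤ q log ^ κ q`, of ALL integers `q ≥ 1` with `|q - r m| ≤ log ^ A N` satisfy the assertion of the problem:
  there is a prime `p` with `√n < p ≤ n / 2` such that `n - p` is a prime, and the number of these primes `p` in every
  interval of length at least `n / log ^ D n` is as predicted up to a relative error of at most `ε`.
* This holds for `r m = β + κ₀ f m`, `m ≤ x`, where `f` is a fixed nonconstant polynomial with integer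
  coefficients, of degree `d`, `κ₀ ≠ 0` is a fixed real number, `β` is any real number with `|β| ≤ B N`, and
  `N / log ^ C N ≤ x ^ d ≤ B N`.
* This holds for `r m = β + ∑ w_y m ^ y` (a sum over a finite set `F` of real exponents `y`), if the largest
  exponent `e` is greater than `1` and not an integer, `w_e ≠ 0`, `|β| ≤ B N` and `N / log ^ C N ≤ x ^ e ≤ B N`; for
  instance for `r m = β + m ^ e`. -/
theorem result (D A B C κ U : ℕ) (ε : ℝ) (hε : 0 < ε) :
    (∀ p : ℕ, ∃ N₀ : ℕ, ∀ N : ℕ, N₀ ≤ N → ∀ (x : ℕ) (r : ℕ → ℝ), (∀ m ∈ Icc 1 x, |r m| ≤ B * N) →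
      (energy p x r : ℝ) * N ≤ Real.log N ^ C * (x : ℝ) ^ (2 * p) → Holds ε D A κ U N x r) ∧
    (∀ f : Polynomial ℤ, 1 ≤ f.natDegree → ∀ κ₀ : ℝ, κ₀ ≠ 0 →
      Sequence ε D A B C κ U (fun m => κ₀ * ((f.eval (m : ℤ) : ℤ) : ℝ)) f.natDegree) ∧
    (∀ (F : Finset ℝ) (w : ℝ → ℝ) (e : ℝ), e ∈ F → (∀ y ∈ F, y ≤ e) → w e ≠ 0 → 1 < e → (∀ k : ℕ, e ≠ k) →
      Sequence ε D A B C κ U (fun m => ∑ y ∈ F, w y * (m : ℝ) ^ y) e) := by
  classical
  refine ⟨fun p => ?_, fun f hd κ₀ hκ => ?_, fun F w e heF hmax hwe he hen => ?_⟩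
  · obtain ⟨B', C', N₀, h1⟩ := Pool.Agent.Q56.TF.near_gen p A B C
    obtain ⟨N₁, h2⟩ := holds_of D A B' κ U (p + 1) C' (by omega) ε hε
    exact ⟨N₀ + N₁, fun N hN x r hr hE => h2 N (by omega) x _ ((h1 N (by omega) x r hr hE).order (by omega))⟩
  · exact sequence_of ((Pool.Agent.Q56.TF.base_poly f hd).dil hκ) (by exact_mod_cast hd) D A B C κ U ε hε
  · exact sequence_of (Pool.Agent.Q56.TF.base_gp F w e heF hmax hwe he hen) he.le D A B C κ U ε hε

end Pool.Agent.Results.MP_73b532_nt.EvensNearRealSequences
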