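import Pool.Agent.Q145.GB1
import Pool.Agent.Y883.T3.MainG
import Pool.Agent.Y883.T3.MomW

/-!
# Goldbach partitions whose smaller prime exceeds the square root, for the multiples of `q`,
`q ≤ N ^ (2 / 3 - ρ)`

Apart from the multiples of the members of a very sparse set of integers larger than `(log N)^A`, every
modulus `q ≤ N ^ (2 / 3 - ρ)` has the property that the assertion of the problem holds for almost all even
multiples `m ≤ N` of `q`, with the predicted numbers of the primes `p` in all intervals of length at least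
`m / log ^ A m`, and at most `X ^ 2 N ^ (ρ - 1)` of the moduli `q ≤ X` do not have it, for every `X ≤ N`.

Definition used (in `Pool.Agent.H560R3.GB`): `sing m`: the singular series
`2 C₂ ∏_{p ∣ m, p > 2} (p - 1) / (p - 2)`, where `C₂ = ∏_{p > 2} (1 - 1 / (p - 1) ^ 2)`.

The theorem on the multiples of moduli is from the starting files (`Pool.Agent.Y883.T3`).
-/

set_option autoImplicit false

namespace Pool.Agent.Results.MP_73b532_nt.MultiplesOfModuliUpToTwoThirds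

open Finset Pool.Agent.H560R3.GB

/-- The number of the primes `p` with `x < p ≤ y` such that `m - p` is also a prime. -/
def G (m x y : ℕ) : ℕ := ((Ioc x y).filter (fun p => p.Prime ∧ (m - p).Prime)).card

/-- (1) There is a prime `p` with `√m < p ≤ m / 2` such that `m - p` is also a prime. (2) For every interval
`(x, y]`, `0 ≤ x < y ≤ m / 2`, of length at least `m / log ^ A m`, the number of the primes `p` in `(x, y]` such
that `m - p` is also a prime is `sing m * (y - x) / log ^ 2 m`, up to a relative error of at most `ε`. -/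
def Holds (ε : ℝ) (A m : ℕ) : Prop :=
  (∃ p : ℕ, p.Prime ∧ (m - p).Prime ∧ m < p ^ 2 ∧ 2 * p ≤ m) ∧
  ∀ x y : ℕ, 2 * y ≤ m → (m : ℝ) / Real.log m ^ A ≤ (y : ℝ) - x →
    |(G m x y : ℝ) - sing m * ((y : ℝ) - x) / Real.log m ^ 2| ≤ ε * (sing m * ((y : ℝ) - x) / Real.log m ^ 2)

lemma holds_of (A : ℕ) (ε : ℝ) (hε : 0 < ε) : ∃ m₀ : ℕ, ∀ m : ℕ, m₀ ≤ m → 2 ∣ m →
    Pool.Agent.W93.PG.WinP (min ε (1 / 2)) (A + 1) m → Holds ε A m := by
  obtain ⟨m₀, h0⟩ := Pool.Agent.Q145.GB1.core A ε hε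
  refine ⟨m₀, fun m hm h2 hw => ?_⟩
  obtain ⟨⟨p, p1, p2, p3, p4⟩, h1⟩ := h0 m hm h2 hw
  exact ⟨⟨p, p1, p2, p3, p4.le⟩, fun x y hy hl => h1 x y (by omega) hl⟩

open Classical in
/-- The number of the even multiples `m` of `q` with `1 ≤ m ≤ N` for which `Holds` fails. -/
noncomputable def exceptions (ε : ℝ) (A N q : ℕ) : ℕ :=
  ((Icc 1 N).filter (fun m => 2 ∣ m ∧ q ∣ m ∧ ¬ Holds ε A m)).card

/-- The modulus `q` is regular: all but at most `N / (q (log N)^A)` of the even multiples `m ≤ N` of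
`q` have the property `Holds ε A m`. -/
def Regular (ε : ℝ) (A N q : ℕ) : Prop :=
  (exceptions ε A N q : ℝ) ≤ (N : ℝ) / (q * Real.log N ^ A)

/-- For all `ε, ρ > 0` and `A` and all sufficiently large `N` there is a finite set `D` of integers, all of
them larger than `(log N)^A`, with at most `y ^ ρ` members up to `y` for every `y ≥ 1`, such that all
positive integers `q ≤ N ^ (2 / 3 - ρ)` that are not divisible by a member of `D` are regular, and for every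
`X ≤ N` at most `X ^ 2 N ^ (ρ - 1)` positive integers `q ≤ X` that are not divisible by a member of `D`
are not regular. -/
theorem result (ε ρ : ℝ) (hε : 0 < ε) (hρ : 0 < ρ) (A : ℕ) :
    ∃ N₀ : ℕ, ∀ N : ℕ, N₀ ≤ N → ∃ D : Finset ℕ,
      (∀ d ∈ D, Real.log N ^ A < (d : ℝ)) ∧
      (∀ y : ℝ, 1 ≤ y → ((D.filter (fun d : ℕ => (d : ℝ) ≤ y)).card : ℝ) ≤ y ^ ρ) ∧
      (∀ q : ℕ, 1 ≤ q → (q : ℝ) ≤ (N : ℝ) ^ (2 / 3 - ρ) → (∀ d ∈ D, ¬ d ∣ q) → Regular ε A N q) ∧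
      ∀ X : ℕ, X ≤ N →
        (({q : ℕ | 1 ≤ q ∧ q ≤ X ∧ (∀ d ∈ D, ¬ d ∣ q) ∧ ¬ Regular ε A N q}.ncard : ℕ) : ℝ) ≤
          (X : ℝ) ^ 2 * (N : ℝ) ^ (ρ - 1) := by
  classical
  obtain ⟨m₀, hm₀⟩ := holds_of A ε hε
  obtain ⟨N₀, h0⟩ := Pool.Agent.Y883.T3.main3G (Holds ε A)
    (fun h B C U hh => Pool.Agent.TH935.GF.fam_win h B C (A + 1) U m₀ hh (min ε (1 / 2))
      (lt_min hε (by norm_num)) (Holds ε A) hm₀)
    (fun A₁ => Pool.Agent.Y883.T3.momW (min ε (1 / 2)) (lt_min hε (by norm_num)) (A + 1) m₀ (Holds ε A) hm₀ A₁)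
    ρ hρ A
  refine ⟨N₀ + 1, fun N hN => ?_⟩
  obtain ⟨D, hD1, hD2, hD4, hD3⟩ := h0 N (by omega)
  refine ⟨D, hD1, hD2, fun q hq hqN hqD => hD4 q hq hqN hqD, fun X hX => ?_⟩
  have hN0 : (0 : ℝ) < N := by exact_mod_cast (by omega : 0 < N)
  have h1 := hD3 X hX
  have hset : {q : ℕ | 1 ≤ q ∧ q ≤ X ∧ (∀ d ∈ D, ¬ d ∣ q) ∧ ¬ Regular ε A N q} =
      (((Icc 1 X).filter (fun q => (∀ d ∈ D, ¬ d ∣ q) ∧
        (N : ℝ) / (q * Real.log N ^ A) < (Pool.Agent.Y883.badm (Holds ε A) N q).card) : Finset ℕ) : Set ℕ) := by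
    ext q
    rw [mem_coe, mem_filter, mem_Icc]
    constructor
    · rintro ⟨a1, a2, a3, a4⟩
      exact ⟨⟨a1, a2⟩, a3, not_le.1 a4⟩
    · rintro ⟨⟨a1, a2⟩, a3, a4⟩
      exact ⟨a1, a2, a3, not_le.2 a4⟩
  rw [hset, Set.ncard_coe_finset]
  refine le_of_mul_le_mul_right ?_ hN0
  refine h1.trans (le_of_eq ?_)
  calc (X : ℝ) ^ 2 * (N : ℝ) ^ ρ = X ^ 2 * ((N : ℝ) ^ (ρ - 1) * (N : ℝ) ^ (1 : ℝ)) := by
        rw [← Real.rpow_add hN0]; congr 2; ring
    _ = X ^ 2 * (N : ℝ) ^ (ρ - 1) * N := by rw [Real.rpow_one]; ring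

end Pool.Agent.Results.MP_73b532_nt.MultiplesOfModuliUpToTwoThirds
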