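import Pool.Agent.Q145.GB1
import Pool.Agent.TH872.Mir7

/-!
# Goldbach partitions whose smaller prime exceeds the square root, for almost all palindromes

Definitions used:
* in `Pool.Agent.H560R3.GB`: `C₂`: the twin prime constant `∏_{p > 2} (1 - 1 / (p - 1) ^ 2)`; `sing m`: the
  singular series `2 C₂ ∏_{p ∣ m, p > 2} (p - 1) / (p - 2)`;
* in `Pool.Agent.TH872.Tr`: `num b k E`: the number of the palindromes with exactly `k` digits in base `b`
  which have the property `E`; `value b k κ c d z`: the integer `c + κ v`, where `v` has the pair of digits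
  `d i` at the positions `i` and `k - 1 - i`, for `i < k / 2`, and, if `k` is odd, the middle digit `z`;
  `Prob b k w u E`: the probability of the event `E` if the pairs `d i` and `z` are chosen independently of
  each other with the distributions `w i` and `u`; `Pairs b k η w`: the `w i` are distributions of pairs of
  digits, and two independent copies of the pair number `i` (`i ≥ 1`) differ in both digits with a
  probability of at least `η`.
-/

set_option autoImplicit false

namespace Pool.Agent.Results.MP_73b532_nt.Palindromes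

open Finset Pool.Agent.H560R3.GB Pool.Agent.TH872.Tr

/-- The number of the primes `p` with `x < p ≤ y` such that `m - p` is also a prime. -/
def G (m x y : ℕ) : ℕ := ((Ioc x y).filter (fun p => p.Prime ∧ (m - p).Prime)).card

/-- (1) There is a prime `p` with `√m < p ≤ m / 2` such that `m - p` is also a prime. (2) For every interval
`(x, y]`, `0 ≤ x < y ≤ m / 2`, of length at least `m / log ^ A m`, the number of the primes `p` in `(x, y]` such
that `m - p` is also a prime is `sing m * (y - x) / log ^ 2 m`, up to a relative error of at most `ε`. -/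
def Holds (ε : ℝ) (A m : ℕ) : Prop :=
  (∃ p : ℕ, p.Prime ∧ (m - p).Prime ∧ m < p ^ 2 ∧ 2 * p ≤ m) ∧
  ∀ x y : ℕ, 2 * y ≤ m → (m : ℝ) / Real.log m ^ A ≤ (y : ℝ) - x →
    |(G m x y : ℝ) - sing m * ((y : ℝ) - x) / Real.log m ^ 2| ≤ ε * (sing m * ((y : ℝ) - x) / Real.log m ^ 2)

lemma holds_of (A : ℕ) (ε : ℝ) (hε : 0 < ε) : ∃ m₀ : ℕ, ∀ m : ℕ, m₀ ≤ m → 2 ∣ m →
    Pool.Agent.W93.PG.WinP (min ε (1 / 2)) (A + 1) m → Holds ε A m := by
  obtain ⟨m₀, h0⟩ := Pool.Agent.Q145.GB1.core A ε hε
  refine ⟨m₀, fun m hm h2 hw => ?_⟩
  obtain ⟨⟨p, p1, p2, p3, p4⟩, h1⟩ := h0 m hm h2 hw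
  exact ⟨⟨p, p1, p2, p3, p4.le⟩, fun x y hy hl => h1 x y (by omega) hl⟩

/-- Let `b ≥ 2`, `B`, `A`, `U`, `κ ≠ 0`, `η > 0` and `ε > 0` be fixed, let `k` be large, and let `c` be an
arbitrary integer with `|c| ≤ B b ^ k`.

(1) Let `v` be a random integer with `k` digits in base `b`, such that the pairs formed by the digits at
the positions `i` and `k - 1 - i` are independent of each other for different `i`. Inside of a pair the
digits may depend on each other in an arbitrary way; the distributions of the pairs are arbitrary (and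
depend on the position and on `k`), only two independent copies of a pair (with `i ≥ 1`) should differ in
both digits with a probability of at least `η`. Then, with a probability of at least `1 - 1 / k ^ U`, the
integer `m = c + κ v` is not positive, or odd, or it satisfies `Holds`: the assertion of the problem holds
for `m`, and the number of the primes `p` in every interval of length at least `m / log ^ A m` is as
predicted, up to a relative error of at most `ε`.

(2) In particular this holds for all the palindromes `v` with `k` digits in base `b`, up to a proportion of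
at most `1 / k ^ U` of them. -/
theorem result (b B A U : ℕ) (hb : 2 ≤ b) (κ : ℤ) (hκ : κ ≠ 0) (η ε : ℝ) (hη : 0 < η) (hε : 0 < ε) :
    ∃ k₀ : ℕ, ∀ k : ℕ, k₀ ≤ k → ∀ c : ℤ, |c| ≤ B * (b : ℤ) ^ k →
      (∀ (w : ℕ → ℕ × ℕ → ℝ) (u : ℕ → ℝ), Pairs b k η w → (∀ a, 0 ≤ u a) → ∑ a ∈ range b, u a = 1 →
        Prob b k w u (fun d z => 0 < value b k κ c d z ∧ Even (value b k κ c d z) ∧
          ¬ Holds ε A (value b k κ c d z).toNat) ≤ 1 / (k : ℝ) ^ U) ∧
      (num b k (fun v => 0 < c + κ * v ∧ Even (c + κ * v) ∧ ¬ Holds ε A (c + κ * v).toNat) : ℝ) ≤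
        num b k (fun _ => True) / (k : ℝ) ^ U := by
  obtain ⟨m₀, h0⟩ := holds_of A ε hε
  obtain ⟨k₀, h⟩ := transfer b B U hb κ _ (Pool.Agent.TH872.Mir.mir_windows b B U (A + 1) m₀ hb κ hκ (min ε (1 / 2))
    (lt_min hε (by norm_num)) (Holds ε A) h0) η hη
  refine ⟨k₀, fun k hk c hc => ?_⟩
  exact h k hk c hc (fun n => 0 < n ∧ Even n ∧ ¬ Holds ε A n.toNat) (fun n hn => hn)

end Pool.Agent.Results.MP_73b532_nt.Palindromes
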