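import Pool.Agent.Q145.GB1
import Pool.Agent.TH935.GF
import Pool.Agent.TH935.GF2

/-!
# Goldbach partitions whose smaller prime exceeds the square root, for almost all members of arbitrary thin
families of integers of nearly minimal additive energy

Definitions used (in `Pool.Agent.H560R3.GB`): `C₂`: the twin prime constant
`∏_{p > 2} (1 - 1 / (p - 1) ^ 2)`; `sing m`: the singular series `2 C₂ ∏_{p ∣ m, p > 2} (p - 1) / (p - 2)`.
-/

set_option autoImplicit false

namespace Pool.Agent.Results.MP_73b532_nt.ThinFamilies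

open Finset Pool.Agent.H560R3.GB

/-- The number of the primes `p` with `x < p ≤ y` such that `m - p` is also a prime. -/
def G (m x y : ℕ) : ℕ := ((Ioc x y).filter (fun p => p.Prime ∧ (m - p).Prime)).card

/-- (1) There is a prime `p` with `√m < p ≤ m / 2` such that `m - p` is also a prime. (2) For every interval
`(x, y]`, `0 ≤ x < y ≤ m / 2`, of length at least `m / log ^ A m`, the number of the primes `p` in `(x, y]` such
that `m - p` is also a prime is `sing m * (y - x) / log ^ 2 m`, up to a relative error of at most `ε`. -/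
def Holds (ε : ℝ) (A m : ℕ) : Prop :=
  (∃ p : ℕ, p.Prime ∧ (m - p).Prime ∧ m < p ^ 2 ∧ 2 * p ≤ m) ∧
  ∀ x y : ℕ, 2 * y ≤ m → (m : ℝ) / Real.log m ^ A ≤ (y : ℝ) - x →
    |(G m x y : ℝ) - sing m * ((y : ℝ) - x) / Real.log m ^ 2| ≤ ε * (sing m * ((y : ℝ) - x) / Real.log m ^ 2)

lemma holds_of (A : ℕ) (ε : ℝ) (hε : 0 < ε) : ∃ m₀ : ℕ, ∀ m : ℕ, m₀ ≤ m → 2 ∣ m →
    Pool.Agent.W93.PG.WinP (min ε (1 / 2)) (A + 1) m → Holds ε A m := by
  obtain ⟨m₀, h0⟩ := Pool.Agent.Q145.GB1.core A ε hε
  refine ⟨m₀, fun m hm h2 hw => ?_⟩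
  obtain ⟨⟨p, p1, p2, p3, p4⟩, h1⟩ := h0 m hm h2 hw
  exact ⟨⟨p, p1, p2, p3, p4.le⟩, fun x y hy hl => h1 x y (by omega) hl⟩

/-- The additive energy of order `h` of a finite family of integers `v i`: the number of solutions of
`v (a 1) + ... + v (a h) = v (b 1) + ... + v (b h)`. -/
noncomputable def energy (h : ℕ) {ι : Type} [Fintype ι] (v : ι → ℤ) : ℕ :=
  Nat.card {q : (Fin h → ι) × (Fin h → ι) // ∑ j, v (q.1 j) = ∑ j, v (q.2 j)}

/-- The number of representations of `t` as `v (a 1) + ... + v (a h)`. -/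
noncomputable def reps (h : ℕ) {ι : Type} [Fintype ι] (v : ι → ℤ) (t : ℤ) : ℕ :=
  Nat.card {a : Fin h → ι // ∑ j, v (a j) = t}

open Classical in
/-- The number of the members `v i` of the family which are positive and even, and for which `Holds`
fails. -/
noncomputable def exceptions (ε : ℝ) (A : ℕ) {ι : Type} [Fintype ι] (v : ι → ℤ) : ℕ :=
  (univ.filter (fun i => 0 < v i ∧ Even (v i) ∧ ¬ Holds ε A (v i).toNat)).card

theorem first (h A B C U : ℕ) (hh : 1 ≤ h) (ε : ℝ) (hε : 0 < ε) :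
    ∃ N₀ : ℕ, ∀ N : ℕ, N₀ ≤ N → ∀ (ι : Type) [Fintype ι] (v : ι → ℤ),
      (∀ i, v i ≤ B * N) →
      (energy h v : ℝ) * N ≤ Real.log N ^ C * (Fintype.card ι : ℝ) ^ (2 * h) →
      (exceptions ε A v : ℝ) ≤ Fintype.card ι / Real.log N ^ U := by
  classical
  obtain ⟨m₀, hP⟩ := holds_of A ε hε
  obtain ⟨N₀, h0⟩ := Pool.Agent.TH935.GF.transfer h B C U (Holds ε A) (by
    intro B C U
    exact Pool.Agent.TH935.GF.fam_win h B C (A + 1) U m₀ hh (min ε (1 / 2))
      (lt_min hε (by norm_num)) (Holds ε A) hP)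
  refine ⟨N₀, fun N hN ι _ v hv hE => ?_⟩
  unfold exceptions
  refine h0 N hN ι v hv hE _ ?_
  intro i hi
  rw [mem_filter] at hi
  exact hi.2

/-- Let `h ≥ 1`, `A`, `B`, `C`, `U` and `ε > 0` be fixed, and let `N` be large. Let `v i`, `i ∈ ι`, be an
arbitrary finite family of integers `≤ B N`.

* Suppose that the additive energy of order `h` of the family is at most `log ^ C N` times
  `(#ι) ^ (2 h) / N` (up to the power of the logarithm this is the least possible energy of a family with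
  members in `[0, N]`, and the family may have as few as `N ^ (1 / h)` members). Then all of its
  positive even members `m`, with at most `#ι / log ^ U N` exceptions, have the property `Holds`: the
  assertion of the problem, and the predicted numbers of the primes `p` in all intervals of length at
  least `m / log ^ A m`.
* In particular this holds if no integer has more than `log ^ C N` representations as a sum of `h` members
  of the family, and `(#ι) ^ h ≥ N / log ^ C N`.

(Both hypotheses are invariant under translations: the results hold in every translate of the family.) -/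
theorem result (h A B C U : ℕ) (hh : 1 ≤ h) (ε : ℝ) (hε : 0 < ε) :
    (∃ N₀ : ℕ, ∀ N : ℕ, N₀ ≤ N → ∀ (ι : Type) [Fintype ι] (v : ι → ℤ),
      (∀ i, v i ≤ B * N) →
      (energy h v : ℝ) * N ≤ Real.log N ^ C * (Fintype.card ι : ℝ) ^ (2 * h) →
      (exceptions ε A v : ℝ) ≤ Fintype.card ι / Real.log N ^ U) ∧
    (∃ N₀ : ℕ, ∀ N : ℕ, N₀ ≤ N → ∀ (ι : Type) [Fintype ι] (v : ι → ℤ),
      (∀ i, v i ≤ B * N) →
      (∀ t, (reps h v t : ℝ) ≤ Real.log N ^ C) →
      (N : ℝ) ≤ Real.log N ^ C * (Fintype.card ι : ℝ) ^ h →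
      (exceptions ε A v : ℝ) ≤ Fintype.card ι / Real.log N ^ U) := by
  refine ⟨first h A B C U hh ε hε, ?_⟩
  obtain ⟨N₀, h0⟩ := first h A B (2 * C) U hh ε hε
  obtain ⟨N₁, h1⟩ := Pool.Agent.H373R2.T7.ev_L' 1
  refine ⟨N₀ + N₁, fun N hN ι _ v hv hJ hx => ?_⟩
  apply h0 N (by omega) ι v hv
  have hL := h1 N (by omega)
  have hL0 : 0 ≤ Real.log N := by linarith
  have h2 : (energy h v : ℝ) ≤ (Fintype.card ι : ℝ) ^ h * Real.log N ^ C :=
    Pool.Agent.TH935.GF.En_le h v _ hJ
  calc (energy h v : ℝ) * N ≤ ((Fintype.card ι : ℝ) ^ h * Real.log N ^ C) * (Real.log N ^ C * (Fintype.card ι : ℝ) ^ h) :=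
        mul_le_mul h2 hx (Nat.cast_nonneg _) (by positivity)
    _ = Real.log N ^ (2 * C) * (Fintype.card ι : ℝ) ^ (2 * h) := by ring

end Pool.Agent.Results.MP_73b532_nt.ThinFamilies
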